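import Pool.Agent.Y92.ZX.Stm4
import Pool.Agent.Y858.ZX.Wild

/-!
# Project ZX: no wild torsion for two independent monomials
-/

set_option autoImplicit false
set_option linter.unusedSectionVars false

open UpperHalfPlane H294ZP Polynomial IsDedekindDomain NumberField

namespace Pool.Agent.Y153.ZX

open Pool.Agent.Y226 Pool.Agent.Y226.ZG Pool.Agent.Y226.ZM Pool.Agent.Y226.ZU Pool.Agent.Y92.ZX
open Pool.Agent.Y858.ZX (exact_rel LB_p_ne_two)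

theorem wgen : S_WGEN := by
  intro C _ _ p hpf k 𝕜 _ _ n N W M d D B 𝓛 x hx v w hv hw hvw hsupp F₁ F₂ hF₁ hF₂ ε₁ ε₂ s
    hε₁ hε₂ hG₁ hG₂
  have hp2 : p ≠ 2 := LB_p_ne_two 𝓛
  have hrel : ‖E2 (Nr C p).subtype (F₁ : C) (F₂ : C) (𝓛.ht v w)‖ ≤ ‖(p : C)‖ := by
    rw [hF₁, hF₂]
    exact hx.r2 _ _ hv hw hvw hsupp
  obtain ⟨c, hcN, hcr, hc0⟩ := exact_rel 𝓛.red 𝓛.hker 𝓛.hp1 𝓛.ρ 𝓛.ι 𝓛.hι
    (𝓛.hht _ _ hv hw hvw).1 (𝓛.hht _ _ hv hw hvw).2 hrel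
  have hNC : NoCoset k d (fun m => 𝓛.red (c m)) := by
    have h1 := 𝓛.𝓡.hNC _ _ hv hw hvw k 𝓛.ι
    have h2 : (fun m => 𝓛.red (c m)) = fun m => 𝓛.ι (cf (𝓛.𝓡.h v w) m) := funext hcr
    rw [h2]
    exact h1
  have hb2 := 𝓛.b2
  obtain ⟨D', h1, h2⟩ := lemW 𝓛.red 𝓛.hker hp2 𝓛.hp0 𝓛.hp1 c hcN hNC (by omega) hc0 hε₁ hε₂
    le_rfl hG₁ hG₂
  have hρ0 : 0 < ‖(ε₁ : C) - 1‖ := PData.root_pos hp2 𝓛.hp1 𝓛.hp0 hε₁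
  have hρ1 : ‖(ε₁ : C) - 1‖ < 1 := ppow_root_lt 𝓛.hp1 hε₁.pow_eq_one
  rw [← ppow_root_norm hp2 𝓛.hp1 hε₁] at h2
  have h3 : p ^ s * (p - 1) ≤ D' := (pow_le_pow_iff_right_of_lt_one₀ hρ0 hρ1).1 h2
  have h4 : (p ^ s * (p - 1)) ^ 2 ≤ 16 * d ^ 2 * p ^ (s + 1) := (Nat.pow_le_pow_left h3 2).trans h1
  obtain ⟨q, hq⟩ : ∃ q, p = q + 1 := ⟨p - 1, by have := hpf.out.two_le; omega⟩
  have h5 : p - 1 = q := by omega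
  rw [h5, mul_pow, pow_succ] at h4
  have h6 : 1 ≤ p ^ s := Nat.one_le_pow _ _ hpf.out.pos
  have h7 : p ^ s * (p ^ s * q ^ 2) ≤ p ^ s * (16 * d ^ 2 * p) := by
    calc p ^ s * (p ^ s * q ^ 2) = (p ^ s) ^ 2 * q ^ 2 := by ring
      _ ≤ 16 * d ^ 2 * (p ^ s * p) := h4
      _ = p ^ s * (16 * d ^ 2 * p) := by ring
  have h8 := Nat.le_of_mul_le_mul_left h7 (by omega)
  have h9 : q ^ 2 ≤ 16 * d ^ 2 * p := by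
    calc q ^ 2 = 1 * q ^ 2 := (one_mul _).symm
      _ ≤ p ^ s * q ^ 2 := Nat.mul_le_mul_right _ h6
      _ ≤ _ := h8
  have h10 : 16 * d ^ 2 + 2 ≤ q := by omega
  have h11 : 16 * d ^ 2 * p = 16 * d ^ 2 * (q + 1) := by rw [hq]
  rw [h11] at h9
  nlinarith

end Pool.Agent.Y153.ZX
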